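import Pool.Agent.L5helper29.TP.Gen2

/-!
Nonvanishing of `SS ω 1` modulo prime powers and of `SS ω 2` modulo twice odd prime powers
(for odd characters): parts (L3) and (L4) of `Pool.Agent.L5helper29.TP.Gen2`.
-/

namespace Pool.Agent.L5helper77

open Finset Pool.Agent.H916R2 Pool.Agent.L5helper29.TP

lemma SS_zero {m : ℕ} [NeZero m] (χ : DirichletCharacter ℂ m) : SS χ 0 = 0 := by
  unfold SS
  apply sum_eq_zero
  intro t _
  rw [mul_zero, saw_zero]
  simp

/-- the step of the induction: the distribution relation for `l`, for `m = l * (g * l ^ (k-1))`. -/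
lemma SS_pow_mul {m : ℕ} [NeZero m] (χ : DirichletCharacter ℂ m) {l k g : ℕ}
    (hm : g * l ^ k = m)
    (h0 : ∀ u : ℕ, u.Coprime l → SS χ ((g * u : ℕ) : ZMod m) = 0) :
    ∀ j : ℕ, j < k → ∀ u : ℕ, u.Coprime l → SS χ ((g * (l ^ j * u) : ℕ) : ZMod m) = 0 := by
  intro j
  induction j with
  | zero =>
    intro _ u hu
    simpa using h0 u hu
  | succ j ih =>
    intro hj u hu
    obtain ⟨r, hr⟩ : ∃ r : ℕ, k = j + (r + 1) + 1 := ⟨k - j - 2, by omega⟩
    have hpd : l * (g * l ^ (j + (r + 1))) = m := by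
      rw [← hm, hr, pow_succ l (j + (r + 1))]; ring
    have h1 := SS_dist χ hpd ((g * (l ^ j * u) : ℕ) : ZMod m)
    have h2 : ∀ i ∈ range l, SS χ (((g * (l ^ j * u) : ℕ) : ZMod m) +
        (i : ZMod m) * ((g * l ^ (j + (r + 1)) : ℕ) : ZMod m)) = 0 := by
      intro i _
      have h3 : ((g * (l ^ j * u) : ℕ) : ZMod m) +
          (i : ZMod m) * ((g * l ^ (j + (r + 1)) : ℕ) : ZMod m) =
          ((g * (l ^ j * (u + i * l ^ (r + 1))) : ℕ) : ZMod m) := by
        push_cast
        rw [pow_add]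
        ring
      rw [h3]
      apply ih (by omega)
      have h4 : u + i * l ^ (r + 1) = u + (i * l ^ r) * l := by rw [pow_succ]; ring
      rw [h4]
      exact (Nat.coprime_add_mul_right_left u l (i * l ^ r)).mpr hu
    rw [sum_eq_zero h2] at h1
    have h5 : ((l : ℕ) : ZMod m) * ((g * (l ^ j * u) : ℕ) : ZMod m) =
        ((g * (l ^ (j + 1) * u) : ℕ) : ZMod m) := by
      push_cast
      rw [pow_succ]
      ring
    rw [h5] at h1
    exact h1.symm

lemma SS_all_mul {m : ℕ} [NeZero m] (χ : DirichletCharacter ℂ m) {l k g : ℕ} (hl : l.Prime)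
    (hm : g * l ^ k = m)
    (h0 : ∀ u : ℕ, u.Coprime l → SS χ ((g * u : ℕ) : ZMod m) = 0) (n : ℕ) :
    SS χ ((g * n : ℕ) : ZMod m) = 0 := by
  by_cases hn : l ^ k ∣ n
  · obtain ⟨c, rfl⟩ := hn
    have : ((g * (l ^ k * c) : ℕ) : ZMod m) = 0 := by
      rw [ZMod.natCast_eq_zero_iff, ← hm]
      exact ⟨c, by ring⟩
    rw [this]
    exact SS_zero χ
  · have hn0 : n ≠ 0 := by
      rintro rfl
      exact hn (dvd_zero _)
    obtain ⟨j, u, hu, rfl⟩ := Nat.exists_eq_pow_mul_and_not_dvd hn0 l hl.ne_one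
    have hj : j < k := by
      by_contra h
      push Not at h
      exact hn (dvd_mul_of_dvd_left (pow_dvd_pow l h) u)
    exact SS_pow_mul χ hm h0 j hj u ((Nat.Prime.coprime_iff_not_dvd hl).mpr hu).symm

theorem ss1 : S_ss1 := by
  intro l k hl hk ω hω h
  have hl' : l.Prime := hl.out
  obtain ⟨a, ha⟩ := exists_SS_ne_zero ω hω
  apply ha
  have h0 : ∀ u : ℕ, u.Coprime l → SS ω ((1 * u : ℕ) : ZMod (l ^ k)) = 0 := by
    intro u hu
    have hu' : u.Coprime (l ^ k) := Nat.Coprime.pow_right k hu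
    have := SS_unit ω (ZMod.unitOfCoprime u hu') 1
    rw [h, mul_zero, mul_one, ZMod.coe_unitOfCoprime] at this
    simpa using this
  have := SS_all_mul ω hl' (one_mul (l ^ k)) h0 a.val
  simpa using this

theorem ss2 : S_ss2 := by
  intro l k hl hl2 hk ω hω h
  have hl' : l.Prime := hl.out
  have hodd : Odd l := hl'.odd_of_ne_two hl2
  have hoddk : Odd (l ^ k) := hodd.pow
  obtain ⟨a, ha⟩ := exists_SS_ne_zero ω hω
  apply ha
  -- odd units
  have hA : ∀ u : ℕ, u.Coprime l → Odd u → SS ω ((2 * u : ℕ) : ZMod (2 * l ^ k)) = 0 := by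
    intro u hu hu2
    have hu' : u.Coprime (2 * l ^ k) :=
      Nat.Coprime.mul_right (Nat.coprime_two_right.mpr hu2) (Nat.Coprime.pow_right k hu)
    have := SS_unit ω (ZMod.unitOfCoprime u hu') 2
    rw [h, mul_zero, ZMod.coe_unitOfCoprime] at this
    rw [← this]
    congr 1
    push_cast
    ring
  have h0 : ∀ u : ℕ, u.Coprime l → SS ω ((2 * u : ℕ) : ZMod (2 * l ^ k)) = 0 := by
    intro u hu
    rcases Nat.even_or_odd u with he | ho
    · have h1 : ((2 * u : ℕ) : ZMod (2 * l ^ k)) = ((2 * (u + l ^ k) : ℕ) : ZMod (2 * l ^ k)) := by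
        rw [mul_add, Nat.cast_add, ZMod.natCast_self (2 * l ^ k), add_zero]
      rw [h1]
      apply hA
      · obtain ⟨k', rfl⟩ : ∃ k', k = k' + 1 := ⟨k - 1, by omega⟩
        rw [pow_succ]
        exact (Nat.coprime_add_mul_right_left u l (l ^ k')).mpr hu
      · exact he.add_odd hoddk
    · exact hA u hu ho
  have heven := SS_all_mul ω hl' rfl h0
  have key : ∀ n : ℕ, SS ω ((n : ℕ) : ZMod (2 * l ^ k)) = 0 := by
    intro n
    rcases Nat.even_or_odd n with he | ho
    · obtain ⟨c, hc⟩ := he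
      have : n = 2 * c := by omega
      rw [this]
      exact heven c
    · have h1 := SS_dist ω (p := 2) (d := l ^ k) rfl ((n : ℕ) : ZMod (2 * l ^ k))
      rw [sum_range_succ, sum_range_one] at h1
      obtain ⟨c, hc⟩ := ho.add_odd hoddk
      have h2 : ((n : ℕ) : ZMod (2 * l ^ k)) + ((1 : ℕ) : ZMod (2 * l ^ k)) *
          ((l ^ k : ℕ) : ZMod (2 * l ^ k)) = ((2 * c : ℕ) : ZMod (2 * l ^ k)) := by
        rw [show 2 * c = n + l ^ k by omega]
        push_cast
        ring
      have h3 : ((2 : ℕ) : ZMod (2 * l ^ k)) * ((n : ℕ) : ZMod (2 * l ^ k)) =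
          ((2 * n : ℕ) : ZMod (2 * l ^ k)) := by push_cast; ring
      rw [h2, h3, heven c, heven n] at h1
      simpa using h1
  have := key a.val
  simpa using this

end Pool.Agent.L5helper77
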